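import Pool.Agent.MP_ed9623_an.H77.SpecW

/-! Row Scal: the scalar coefficients of the trace equation. -/

open MeasureTheory Filter Topology Set
open scoped ContDiff

namespace Pool.Agent.MP_ed9623_an.H77

open H64

namespace Scal

variable {O : Set P} {f g : P → ℝ} {γ : ℝ → ℝ}

theorem gm0 (h : WD O (ee 0) f g) (hf : M2 f) (hg : M2 g) (hγ : Gam γ) :
    WD O (ee 0) (fun p => γ p.1 * f p) fun p => γ p.1 * g p + deriv γ p.1 * f p := by
  simpa only [hγ.pd0] using h.smul hf hg hγ.smP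

theorem gm1 (h : WD O (ee 1) f g) (hf : M2 f) (hg : M2 g) (hγ : Gam γ) :
    WD O (ee 1) (fun p => γ p.1 * f p) fun p => γ p.1 * g p := by
  simpa only [hγ.pd1, zero_mul, add_zero] using h.smul hf hg hγ.smP

end Scal

open Scal

theorem rowScal : OfScal := by
  intro zt γ r w G dw dY dS dYY dYS hγ hr vf h
  have g1 := hγ.deriv
  have g2 := g1.deriv
  have g3 := g2.deriv
  have md : ∀ j i, M2 (dw j i) := fun j i => (vf.h1 j).md i
  have mY : ∀ j i, M2 (dY j i) := fun j i => ((h j).2.m i).1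
  have mYY : ∀ j i, M2 (dYY j i) := fun j i => ((h j).2.m i).2.2.1
  have hy : ∀ j i, WD (Q r) (ee 0) (dw j i) (dY j i) := fun j i => (h j).2.y i
  have hyy : ∀ j i, WD (Q r) (ee 0) (dY j i) (dYY j i) := fun j i => (h j).2.yy i
  have mA : ∀ j, M2 fun p => dw j 0 p + deriv γ p.1 * dw j 1 p := fun j =>
    (md j 0).add ((md j 1).gmul g1)
  have wA : ∀ j, WD (Q r) (ee 0) (w j) fun p => dw j 0 p + deriv γ p.1 * dw j 1 p := fun j =>
    ((vf.h1 j).wd0 hγ).mono (subset_univ _)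
  have sA : ∀ j, WD (Q r) (ee 1) (fun p => dw j 0 p + deriv γ p.1 * dw j 1 p) (dY j 1) := fun j =>
    (wA j).comm ((vf.h1 j).wd1.mono (subset_univ _)) (hy j 1)
  have vA := fun j => (wA j).van_low (mA j) (h j).1
  have m1 := (mY 0 1).gmul g1
  have m2 := (md 0 1).gmul g2
  have mB := (mY 0 0).add (m1.add m2)
  have yA := (hy 0 0).add (gm0 (hy 0 1) (md 0 1) (mY 0 1) g1) (md 0 0) (mY 0 0)
    ((md 0 1).gmul g1) (m1.add m2)
  have sB := yA.comm (sA 0) (hyy 0 1)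
  have vB := yA.van_low mB (vA 0)
  have m3 := ((mYY 0 1).gmul g1).add ((mY 0 1).gmul g2)
  have m4 := ((mY 0 1).gmul g2).add ((md 0 1).gmul g3)
  have yB := (hyy 0 0).add ((gm0 (hyy 0 1) (mY 0 1) (mYY 0 1) g1).add
    (gm0 (hy 0 1) (md 0 1) (mY 0 1) g2) m1 m3 m2 m4) (mY 0 0) (mYY 0 0) (m1.add m2) (m3.add m4)
  have dv : ∀ᵐ p, p ∈ Q r → dY 1 1 p = -dY 0 0 p :=
    (hy 1 1).uniq (isOpen_Q r) ((hy 0 0).neg.congr (vf.dv.mono fun p a _ => by linarith)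
      (Eventually.of_forall fun _ _ => rfl)) (mY 1 1) (mY 0 0).neg
  have mM := (mA 1).neg.add ((mA 0).gmul g1)
  have sM : WD (Q r) (ee 1) (fun p => -(dw 1 0 p + deriv γ p.1 * dw 1 1 p) +
      deriv γ p.1 * (dw 0 0 p + deriv γ p.1 * dw 0 1 p)) fun p =>
      deriv (deriv γ) p.1 * -dw 0 1 p -
        -(dY 0 0 p + (deriv γ p.1 * dY 0 1 p + deriv (deriv γ) p.1 * dw 0 1 p)) :=
    ((sA 1).neg.add (gm1 (sA 0) (mA 0) (mY 0 1) g1) (mA 1).neg (mY 1 1).neg ((mA 0).gmul g1)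
      m1).congr (Eventually.of_forall fun _ _ => rfl) (dv.mono fun p a hp => by rw [a hp]; ring)
  have q := Qp_sub 0 r
  exact ⟨_, _, _, _, _, _, ⟨(md 0 1).neg, ((h 0).2.m 1).2.1.neg, (mY 0 1).neg, (mYY 0 1).neg,
      ((h 0).2.m 1).2.2.2.neg, (mA 0).neg, mB.neg, ((mYY 0 0).add (m3.add m4)).neg, mM⟩,
    ((h 0).2.s 1).neg, ((hy 0 1).mono q).neg, ((hyy 0 1).mono q).neg, ((h 0).2.ys 1).neg,
    (yA.mono q).neg, (yB.mono q).neg, sM.mono q,
    (zt r _ _ hr (mA 0).neg (mY 0 1).neg).2.1 (sA 0).neg (vA 0).neg,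
    (zt r _ _ hr mB.neg (mYY 0 1).neg).2.1 sB.neg vB.neg,
    (zt r _ _ hr mM (((md 0 1).neg.gmul g2).sub mB.neg)).2.1 sM
      ((vA 1).neg.add ((vA 0).smul _))⟩

end Pool.Agent.MP_ed9623_an.H77
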